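import Pool.Agent.Lib.MP_7b644b_an.Check

set_option autoImplicit false

namespace Pool.Agent.Lib.MP_7b644b_an.Variants.Counterexample

open Pool.Agent.Lib.MP_7b644b_an

/-- There are a row-stochastic real matrix `A` and a diagonal matrix `E = diagonal e` with
nonnegative entries, one of them at least `3`, such that `A - E` has spectral radius
(over the complex numbers) less than `1`. -/
theorem result :
    ∃ (n : ℕ) (A : Matrix (Fin n) (Fin n) ℝ) (e : Fin n → ℝ),
      1 ≤ n ∧ (∀ i j, 0 ≤ A i j) ∧ (∀ i, ∑ j, A i j = 1) ∧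
      (∀ j, 0 ≤ e j) ∧ (∃ i, 3 ≤ e i) ∧
      spectralRadius ℂ ((A - Matrix.diagonal e).map (fun x : ℝ => (x : ℂ))) < 1 := by
  refine ⟨20, Matrix.of fun i j => (aQ i j : ℝ), fun i => (eQ i : ℝ), by norm_num, ?_, ?_, ?_,
    ⟨0, ?_⟩, ?_⟩
  · intro i j
    simp only [Matrix.of_apply]
    exact_mod_cast aQ_nonneg i j
  · intro i
    simp only [Matrix.of_apply]
    exact_mod_cast aQ_sum i
  · intro j
    show (0 : ℝ) ≤ (eQ j : ℝ)
    exact_mod_cast eQ_nonneg j
  · show (3 : ℝ) ≤ (eQ 0 : ℝ)
    exact_mod_cast eQ_zero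
  · have hlt : ((997 / 1000 : NNReal) : ENNReal) < 1 := by
      rw [ENNReal.coe_lt_one_iff, ← NNReal.coe_lt_coe]
      norm_num
    refine lt_of_le_of_lt ?_ hlt
    refine iSup₂_le fun μ hμ => ?_
    rw [spectrum.mem_iff, Matrix.isUnit_iff_isUnit_det, isUnit_iff_ne_zero, not_not,
      ← Matrix.exists_mulVec_eq_zero_iff] at hμ
    obtain ⟨v, hv, h⟩ := hμ
    have hn : ‖μ‖ ≤ 997 / 1000 := by
      refine eigen_norm μ v hv fun i => ?_
      have hi := congrFun h i
      simp only [Matrix.mulVec, dotProduct, Matrix.sub_apply, Matrix.algebraMap_matrix_apply,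
        Matrix.map_apply, Matrix.of_apply, Matrix.diagonal_apply, Pi.zero_apply] at hi
      have e1 : ∀ j, (nQ i j : ℂ) * v j =
          (if i = j then (μ + 997 / 1000) * v j else 0) -
            ((if i = j then (algebraMap ℂ ℂ) μ else 0) -
              (((aQ i j : ℝ) - if i = j then (eQ i : ℝ) else 0 : ℝ) : ℂ)) * v j := by
        intro j
        simp only [nQ]
        split_ifs with hij
        · simp only [Algebra.algebraMap_self, RingHom.id_apply]
          push_cast
          ring
        · push_cast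
          ring
      simp only [e1, Finset.sum_sub_distrib, hi, Finset.sum_ite_eq, Finset.mem_univ, if_true,
        sub_zero]
    rw [ENNReal.coe_le_coe, ← NNReal.coe_le_coe]
    simpa using hn

end Pool.Agent.Lib.MP_7b644b_an.Variants.Counterexample
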