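import Pool.Agent.Lib.MP_7b644b_an.Witness

set_option autoImplicit false

namespace Pool.Agent.Lib.MP_7b644b_an.Variants.NoThresholdRow

open Pool.Agent.Lib.MP_7b644b_an

/-- For every threshold `c` and every `ε > 0` there are a row-stochastic real matrix `A` with
positive entries and a diagonal matrix `E = diagonal e` with positive diagonal entries, one of
them at least `c`, such that `A - E` has spectral radius (over the complex numbers) less
than `ε`. -/
theorem result (c ε : ℝ) (hε : 0 < ε) :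
    ∃ (n : ℕ) (A : Matrix (Fin n) (Fin n) ℝ) (e : Fin n → ℝ),
      1 ≤ n ∧ (∀ i j, 0 < A i j) ∧ (∀ i, ∑ j, A i j = 1) ∧
      (∀ j, 0 < e j) ∧ (∃ i, c ≤ e i) ∧
      spectralRadius ℂ ((A - Matrix.diagonal e).map (fun x : ℝ => (x : ℂ))) <
        ENNReal.ofReal ε := by
  obtain ⟨n, A, e, hn, h0, h1, he, hc, h⟩ := witness c (ε / 2) (half_pos hε)
  obtain ⟨B, b0, b1, hB⟩ := perturb hn A e (ε / 2) h0 h1 h
  refine ⟨n, B, e, hn, b0, b1, he, hc, ?_⟩
  refine lt_of_le_of_lt ?_ ((ENNReal.ofReal_lt_ofReal_iff hε).2 (half_lt_self hε))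
  refine iSup₂_le fun μ hμ => ?_
  rw [← ENNReal.ofReal_coe_nnreal, coe_nnnorm]
  exact ENNReal.ofReal_le_ofReal (mem_ball_zero_iff.1 (hB hμ)).le

end Pool.Agent.Lib.MP_7b644b_an.Variants.NoThresholdRow
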